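import Pool.Agent.Lib.helper29.FM2

open MeasureTheory FourierTransform Filter Topology
open scoped Convolution
open Pool.Agent.Lib.H29.FM

namespace Pool.Agent.Results.MP_148afe_an.NotContinuous

/-- `ν` is the Fourier transform of `μ`: for every `f ∈ C_c`, the inverse Fourier transform of `f`
lies in `L²(|ν|)` and `μ(f * f~) = ν(|f^∨|²)`. -/
def IsFT {d : ℕ} (μ ν : CMeas d) : Prop :=
  ∀ f : E d → ℂ, IsCc f → MemLp (𝓕⁻ f) 2 ν.m ∧
    μ.act (f ⋆[ContinuousLinearMap.mul ℂ ℂ] (fun x => (starRingEnd ℂ) (f (-x)))) =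
      ν.act (fun y => ((‖𝓕⁻ f y‖ ^ 2 : ℝ) : ℂ))

theorem result (d : ℕ) (hd : 1 ≤ d) :
    ∃ μ ν : ℕ → CMeas d, (∀ n, IsFT (μ n) (ν n)) ∧
      (∀ K : Set (E d), IsCompact K →
        (∀ n, (μ n).normK K < ⊤) ∧ (∀ n, (ν n).normK K < ⊤) ∧
          Tendsto (fun n => (μ n).normK K) atTop (𝓝 0)) ∧
      ∃ g : E d → ℂ, IsCc g ∧ ¬ Tendsto (fun n => (ν n).act g) atTop (𝓝 0) := by
  refine ⟨fun n => ofDens (𝓕⁻ (ww d n)) (cont_inv (ww_int d n)),
    fun n => ofDens (ww d n) (ww_cont d n), ?_, ?_, ?_⟩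
  · intro n f hf
    refine ⟨memLp_inv hf.integrable (ww_cont d n) (ww_int d n) 2, ?_⟩
    have h2 : Integrable (fun x => (starRingEnd ℂ) (f (-x))) :=
      Complex.conjCLE.toContinuousLinearMap.integrable_comp hf.integrable.comp_neg
    rw [ofDens_act, ofDens_act, swap (hf.integrable.integrable_convolution _ h2) (ww_int d n)]
    congr 1
    ext y
    rw [inv_conv hf.integrable]
  · intro K hK
    have hv : volume K < ⊤ := hK.measure_lt_top
    refine ⟨fun n => ?_, fun n => ?_, ?_⟩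
    · exact (ofDens_normK _ _ _ (inv_ww_bound d hd n) K hK).trans_lt
        (ENNReal.mul_lt_top ENNReal.ofReal_lt_top hv)
    · exact (ofDens_normK _ _ _ (ww_bound d n) K hK).trans_lt
        (ENNReal.mul_lt_top ENNReal.ofReal_lt_top hv)
    · have h1 : Tendsto (fun n : ℕ => ENNReal.ofReal (1 / ((n : ℝ) + 1)) * volume K) atTop
          (𝓝 0) := by
        have h := ENNReal.tendsto_ofReal (tendsto_one_div_add_atTop_nhds_zero_nat (𝕜 := ℝ))
        have := ENNReal.Tendsto.mul_const h (b := volume K) (Or.inr hv.ne)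
        simpa using this
      exact tendsto_of_tendsto_of_tendsto_of_le_of_le tendsto_const_nhds h1
        (fun _ => zero_le) (fun n => ofDens_normK _ _ _ (inv_ww_bound d hd n) K hK)
  · have := not_vague d
    by_contra hc
    apply this
    intro g hg
    by_contra h2
    exact hc ⟨g, hg, by simpa only [ofDens_act] using h2⟩

end Pool.Agent.Results.MP_148afe_an.NotContinuous
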